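import Pool.Agent.OS.LAll

set_option autoImplicit false

/-!
# The literal (subfactor) form: reduction to solid factors with property Gamma

`M` is a `II_1` factor in standard form with trace vector `Ω`, solid in the literal sense of the
problem (relative commutants of noninjective SUBFACTORS have minimal projections).  If `M` is not
`ω`-solid in the literal sense for one free ultrafilter `ω`, then `M` contains a noninjective
subfactor `P` which is again solid in the literal sense and for which one may take `N = M = P` in
the failure of `ω'`-solidity for every free ultrafilter `ω'`: `P' ∩ P^ω'` has no minimal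
projection.  The definitions are in `Pool/Agent/OS/Defs.lean` and `Pool/Agent/OS/LDefs.lean`.
-/

namespace Pool.Agent.Results.MP_7c16f6_an.LiteralGamma

open Pool.Agent.OS Filter

universe u

theorem result (H : Type u) [NormedAddCommGroup H] [InnerProductSpace ℂ H] [CompleteSpace H]
    (M : VonNeumannAlgebra H) (Ω : H) (hM : IsII1 M Ω) (hsolid : LSolid M)
    (ω : Ultrafilter ℕ) (hω : (ω : Filter ℕ) ≤ cofinite) (hnot : ¬ LOmegaSolid ω Ω M) :
    ∃ P : VonNeumannAlgebra H, P ≤ M ∧ IsFactorVN P ∧ ¬ Injective P ∧ LSolid P ∧
      ∀ ω' : Ultrafilter ℕ, (ω' : Filter ℕ) ≤ cofinite → DiffuseUltra ω' Ω P P :=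
  All.lit H M Ω hM hsolid ω hω hnot

end Pool.Agent.Results.MP_7c16f6_an.LiteralGamma
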