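import Pool.Agent.OS.All

set_option autoImplicit false

/-!
# Every solid II_1 factor is omega-solid

`M` is a `II_1` factor in standard form with trace vector `Ω`. If `M` is solid (Ozawa: the
relative commutant in `M` of every noninjective von Neumann subalgebra of `M` has a minimal
projection) then `M` is `ω`-solid for every free ultrafilter `ω` on the natural numbers: the
relative commutant in the tracial ultrapower `M^ω` of every noninjective von Neumann subalgebra of
`M` has a minimal projection. The definitions are in `Pool/Agent/OS/Defs.lean`.
-/

namespace Pool.Agent.Results.MP_7c16f6_an.SolidOmegaSolid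

open Pool.Agent.OS Filter

universe u

theorem result (H : Type u) [NormedAddCommGroup H] [InnerProductSpace ℂ H] [CompleteSpace H]
    (M : VonNeumannAlgebra H) (Ω : H) (hM : IsII1 M Ω) (hsolid : Solid M)
    (ω : Ultrafilter ℕ) (hω : (ω : Filter ℕ) ≤ cofinite) : OmegaSolid ω Ω M :=
  All.main H M Ω hM hsolid ω hω

end Pool.Agent.Results.MP_7c16f6_an.SolidOmegaSolid
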